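import Pool.Agent.U167.SA.Stm8
import Pool.Agent.H980R2.Cont.Main
import Pool.Agent.H981R2.TP.Plane

/-!
Project SA, package STA: the starting theorem on the number of contacts of the flat end of a
half-infinite strip, transported by an isometry of the lattice.
-/

set_option autoImplicit false

namespace Pool.Agent.U30.SA

open H974 Filter Topology
open Pool.Agent.U167.SA
open Pool.Agent.H988R2.Perc (Conf OpenAdj perc)
open Pool.Agent.H980R2.Cont (InStrip)

/-- the isometry on vertices, inverse direction -/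
def psi (y : ℤ × ℤ) : ℤ × ℤ := (y.2 + 1, -y.1)

/-- the isometry on vertices -/
def phi (x : ℤ × ℤ) : ℤ × ℤ := (-x.2, x.1 - 1)

theorem psi_phi (x : ℤ × ℤ) : psi (phi x) = x := by
  unfold psi phi; ext <;> simp

theorem phi_psi (x : ℤ × ℤ) : phi (psi x) = x := by
  unfold psi phi; ext <;> simp

/-- the bijection of the edges -/
def ee : Pool.Agent.H988R2.Perc.Edge ≃ Pool.Agent.H988R2.Perc.Edge where
  toFun e := if e.2.2 then (-e.2.1 - 1, e.1 - 1, true) else (-e.2.1, e.1 - 1, false)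
  invFun e := if e.2.2 then (e.2.1 + 1, -e.1 - 1, true) else (e.2.1 + 1, -e.1, false)
  left_inv := by
    rintro ⟨a, b, c⟩
    cases c <;> simp
  right_inv := by
    rintro ⟨a, b, c⟩
    cases c <;> simp

/-- the transported configuration -/
def tr (ω : Conf) : Conf := fun i => ω (ee i)

theorem tr_true (ω : Conf) (a b : ℤ) : tr ω (a, b, true) = ω (-b - 1, a - 1, true) := by
  simp [tr, ee]
theorem tr_false (ω : Conf) (a b : ℤ) : tr ω (a, b, false) = ω (-b, a - 1, false) := by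
  simp [tr, ee]

theorem adj_imp (ω : Conf) (n : ℕ) (x y : ℤ × ℤ) (h : Adj ({e : Edg | ω e = true} ∩ StK n 0) x y) :
    OpenAdj (tr ω) (psi x) (psi y) ∧ InStrip (2*n+1) (psi x) ∧ InStrip (2*n+1) (psi y) := by
  obtain ⟨⟨a, b, c⟩, ⟨ho, hg⟩, h⟩ := h
  unfold StK at hg
  simp only [Set.mem_ofPred_eq] at ho hg
  unfold col ht at hg
  cases c
  · simp only [src_mk, tgt_false] at h hg
    rcases h with ⟨rfl, rfl⟩ | ⟨rfl, rfl⟩
    · refine ⟨?_, ?_, ?_⟩
      · refine Or.inl ⟨rfl, ?_⟩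
        simp only [psi, tr_false]
        simpa using ho
      · unfold InStrip psi; push_cast; omega
      · unfold InStrip psi; push_cast; omega
    · refine ⟨?_, ?_, ?_⟩
      · refine Or.inr (Or.inl ⟨rfl, ?_⟩)
        simp only [psi, tr_false]
        simpa using ho
      · unfold InStrip psi; push_cast; omega
      · unfold InStrip psi; push_cast; omega
  · simp only [src_mk, tgt_true] at h hg
    rcases h with ⟨rfl, rfl⟩ | ⟨rfl, rfl⟩
    · refine ⟨?_, ?_, ?_⟩
      · refine Or.inr (Or.inr (Or.inr ⟨?_, ?_⟩))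
        · simp only [psi]; ext <;> simp
        · simp only [psi, tr_true]
          simpa using ho
      · unfold InStrip psi; push_cast; omega
      · unfold InStrip psi; push_cast; omega
    · refine ⟨?_, ?_, ?_⟩
      · refine Or.inr (Or.inr (Or.inl ⟨?_, ?_⟩))
        · simp only [psi]; ext <;> simp
        · simp only [psi, tr_true]
          simpa using ho
      · unfold InStrip psi; push_cast; omega
      · unfold InStrip psi; push_cast; omega

theorem imp_adj (ω : Conf) (n : ℕ) (x y : ℤ × ℤ)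
    (h : OpenAdj (tr ω) x y ∧ InStrip (2*n+1) x ∧ InStrip (2*n+1) y) :
    Adj ({e : Edg | ω e = true} ∩ StK n 0) (phi x) (phi y) := by
  obtain ⟨h, hx, hy⟩ := h
  obtain ⟨x1, x2⟩ := x
  obtain ⟨y1, y2⟩ := y
  unfold InStrip at hx hy
  push_cast at hx hy
  rcases h with ⟨h, ho⟩ | ⟨h, ho⟩ | ⟨h, ho⟩ | ⟨h, ho⟩
  · simp only [Prod.mk.injEq] at h
    obtain ⟨rfl, rfl⟩ := h
    simp only [tr_false] at ho
    refine ⟨(-y2, x1 - 1, false), ⟨ho, ?_⟩, Or.inl ⟨by simp [phi], by simp [phi]⟩⟩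
    unfold StK
    simp only [Set.mem_ofPred_eq, src_mk, tgt_false, col, ht]
    omega
  · simp only [Prod.mk.injEq] at h
    obtain ⟨rfl, rfl⟩ := h
    simp only [tr_false] at ho
    refine ⟨(-x2, y1 - 1, false), ⟨ho, ?_⟩, Or.inr ⟨by simp [phi], by simp [phi]⟩⟩
    unfold StK
    simp only [Set.mem_ofPred_eq, src_mk, tgt_false, col, ht]
    omega
  · simp only [Prod.mk.injEq] at h
    obtain ⟨rfl, rfl⟩ := h
    simp only [tr_true] at ho
    refine ⟨(-x2 - 1, y1 - 1, true), ⟨ho, ?_⟩, Or.inr ⟨?_, ?_⟩⟩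
    · unfold StK
      simp only [Set.mem_ofPred_eq, src_mk, tgt_true, col, ht]
      omega
    · simp only [src_mk, phi]; ext <;> simp; omega
    · simp only [tgt_true, phi]; ext <;> simp
  · simp only [Prod.mk.injEq] at h
    obtain ⟨rfl, rfl⟩ := h
    simp only [tr_true] at ho
    refine ⟨(-y2 - 1, x1 - 1, true), ⟨ho, ?_⟩, Or.inl ⟨?_, ?_⟩⟩
    · unfold StK
      simp only [Set.mem_ofPred_eq, src_mk, tgt_true, col, ht]
      omega
    · simp only [src_mk, phi]; ext <;> simp; omega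
    · simp only [tgt_true, phi]; ext <;> simp

theorem reach_imp (ω : Conf) (n : ℕ) (x y : ℤ × ℤ)
    (h : Reach ({e : Edg | ω e = true} ∩ StK n 0) x y) :
    Pool.Agent.H980R2.Cont.Joined (2*n+1) (tr ω) (psi x) (psi y) := by
  unfold Reach at h
  unfold Pool.Agent.H980R2.Cont.Joined
  induction h with
  | refl => exact Relation.ReflTransGen.refl
  | tail _ hbc ih => exact ih.tail (adj_imp ω n _ _ hbc)

theorem imp_reach (ω : Conf) (n : ℕ) (x y : ℤ × ℤ)
    (h : Pool.Agent.H980R2.Cont.Joined (2*n+1) (tr ω) x y) :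
    Reach ({e : Edg | ω e = true} ∩ StK n 0) (phi x) (phi y) := by
  unfold Pool.Agent.H980R2.Cont.Joined at h
  unfold Reach
  induction h with
  | refl => exact Relation.ReflTransGen.refl
  | tail _ hbc ih => exact ih.tail (imp_adj ω n _ _ hbc)

theorem mem_XE (ω : Conf) (n : ℕ) (k : ℤ) :
    ω ∈ XE 0 (fun _ => True) {((0:ℤ), (0:ℤ))} n k ↔
      ∃ v : ℤ × ℤ, v.1 + v.2 = 2 * n ∧ Reach ({e : Edg | ω e = true} ∩ StK n 0) (k, k) v := by
  unfold XE Pool.Agent.U167.SA.LE Cj tV TpK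
  simp only [Set.mem_ofPred_eq, true_and]
  constructor
  · rintro ⟨u, hu, v, hv, hr⟩
    have h1 : u = (k, k) := by
      have h2 : (u.1 - k, u.2 - k) = ((0:ℤ), (0:ℤ)) := hu
      simp only [Prod.mk.injEq] at h2
      ext
      · simp only; omega
      · simp only; omega
    subst h1
    refine ⟨v, ?_, hr⟩
    unfold ht at hv
    omega
  · rintro ⟨v, hv, hr⟩
    refine ⟨(k, k), ?_, v, ?_, hr⟩
    · show (k - k, k - k) ∈ ({((0:ℤ), (0:ℤ))} : Set Vtx)
      simp
    · unfold ht; omega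

theorem mem_touch (ω : Conf) (n : ℕ) (x : ℤ × ℤ) :
    x ∈ Pool.Agent.H980R2.Cont.touch (2*n+1) (tr ω) ↔
      ∃ k : ℕ, k < n ∧ ω ∈ XE 0 (fun _ => True) {((0:ℤ), (0:ℤ))} n (k:ℤ) ∧
        x = ((k:ℤ) + 1, -(k:ℤ)) := by
  unfold Pool.Agent.H980R2.Cont.touch
  simp only [Set.mem_ofPred_eq, mem_XE]
  constructor
  · rintro ⟨h1, h2, h3, y, hy, hj⟩
    push_cast at h3 hy
    obtain ⟨x1, x2⟩ := x
    simp only at h1 h2 h3
    refine ⟨(x1 - 1).toNat, by omega, ⟨phi y, ?_, ?_⟩, ?_⟩
    · unfold phi; simp only; omega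
    · have := imp_reach ω n _ _ hj
      have e : phi (x1, x2) = (((x1 - 1).toNat : ℤ), ((x1 - 1).toNat : ℤ)) := by
        unfold phi
        ext
        · simp only; omega
        · simp only; omega
      rw [e] at this
      exact this
    · ext
      · simp only; omega
      · simp only; omega
  · rintro ⟨k, hk, ⟨v, hv, hr⟩, rfl⟩
    refine ⟨by simp, by simp only; omega, by simp only; push_cast; omega, psi v, ?_, ?_⟩
    · unfold psi; push_cast; omega
    · have := reach_imp ω n _ _ hr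
      simpa [psi] using this

open Classical in
theorem N0_eq (ω : Conf) (n : ℕ) : N0 n ω = ((Pool.Agent.H980R2.Cont.touch (2*n+1) (tr ω)).ncard : ℝ) := by
  unfold N0 NN
  have h : Pool.Agent.H980R2.Cont.touch (2*n+1) (tr ω) =
      (fun k : ℕ => (((k:ℤ) + 1, -(k:ℤ)) : ℤ × ℤ)) '' (((Finset.range n).filter (fun k : ℕ =>
        ω ∈ XE 0 (fun _ => True) {((0:ℤ), (0:ℤ))} n (k:ℤ)) : Finset ℕ) : Set ℕ) := by
    ext x
    rw [mem_touch]
    simp only [Set.mem_image, Finset.mem_coe, Finset.mem_filter, Finset.mem_range]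
    constructor
    · rintro ⟨k, h1, h2, h3⟩
      exact ⟨k, ⟨h1, h2⟩, h3.symm⟩
    · rintro ⟨k, ⟨h1, h2⟩, h3⟩
      exact ⟨k, h1, h2, h3.symm⟩
  rw [h, Set.ncard_image_of_injective _ (fun a b hab => by
    simp only [Prod.mk.injEq] at hab
    omega), Set.ncard_coe_finset]

theorem t_STA : StaStm := by
  intro t ht
  have h := Pool.Agent.H980R2.Cont.limit_law t ht
  unfold FX
  refine h.congr (fun n => ?_)
  rw [← Pool.Agent.H981R2.TP.PL.perc_map ee.symm]
  have h2 : percE = perc := rfl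
  rw [h2]
  congr 1
  ext ω
  simp only [Set.mem_preimage, Set.mem_ofPred_eq, N0_eq]
  rfl

end Pool.Agent.U30.SA
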